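import Mathlib

/-!
# Reordering a threefold composition of logistic maps can change the topological entropy

With `(a₁, a₂, a₃) = (1, 3, 4)`: the composition `f₁ ∘ f₂ ∘ f₃` has entropy zero, while
`f₁ ∘ f₃ ∘ f₂` has entropy at least `log 2`.
-/

set_option autoImplicit false

namespace Pool.Agent.Results.MP_3cd2af_an.LogisticReorder

open Set Filter Topology

/-! ## Topological entropy in the sense of Adler, Konheim and McAndrew -/

/-- `U` is an open cover of `X`. -/
def IsOpenCover {X : Type*} [TopologicalSpace X] (U : Set (Set X)) : Prop :=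
  (∀ u ∈ U, IsOpen u) ∧ ⋃₀ U = univ

/-- The least number of members of `U` that still cover `X` (`0` if no finite subfamily covers). -/
noncomputable def coverNum {X : Type*} (U : Set (Set X)) : ℕ :=
  sInf {n : ℕ | ∃ V : Finset (Set X),
    (V : Set (Set X)) ⊆ U ∧ ⋃₀ (V : Set (Set X)) = univ ∧ V.card = n}

/-- The join `U ∨ F⁻¹ U ∨ ⋯ ∨ F^{-(n-1)} U`. -/
def iterJoin {X : Type*} (F : X → X) (U : Set (Set X)) (n : ℕ) : Set (Set X) :=
  {w | ∃ u : Fin n → Set X, (∀ i, u i ∈ U) ∧ w = ⋂ i : Fin n, (F^[(i : ℕ)]) ⁻¹' (u i)}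

/-- The entropy `h(F, U) = lim (1/n) log N(U ∨ ⋯ ∨ F^{-(n-1)} U)` of `F` relative to `U`. -/
noncomputable def entropyOf {X : Type*} (F : X → X) (U : Set (Set X)) : EReal :=
  limsup (fun n : ℕ => (((Real.log (coverNum (iterJoin F U n))) / (n : ℝ) : ℝ) : EReal)) atTop

/-- The topological entropy of `F`: the supremum of `h(F, U)` over all open covers `U`. -/
noncomputable def topEntropy {X : Type*} [TopologicalSpace X] (F : X → X) : EReal :=
  ⨆ (U : Set (Set X)) (_ : IsOpenCover U), entropyOf F U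

/-! ## Logistic maps -/

theorem logistic_mem (a : Icc (1:ℝ) 4) (x : Icc (0:ℝ) 1) :
    (a : ℝ) * x * (1 - x) ∈ Icc (0:ℝ) 1 := by
  obtain ⟨a, ha1, ha2⟩ := a
  obtain ⟨x, hx0, hx1⟩ := x
  constructor
  · simp only
    have : 0 ≤ x * (1 - x) := mul_nonneg hx0 (by linarith)
    nlinarith
  · simp only
    have h1 : 0 ≤ x * (1 - x) := mul_nonneg hx0 (by linarith)
    have h2 : x * (1 - x) ≤ 1 / 4 := by nlinarith [sq_nonneg (x - 1 / 2)]
    nlinarith

/-- The logistic map `f_a(x) = a x (1 - x)` of `[0,1]`, for `a ∈ [1,4]`. -/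
noncomputable def logistic (a : Icc (1:ℝ) 4) (x : Icc (0:ℝ) 1) : Icc (0:ℝ) 1 :=
  ⟨(a : ℝ) * x * (1 - x), logistic_mem a x⟩

/-! ## Entropy of a horseshoe -/

section Horseshoe

theorem exists_itinerary {X : Type*} {F : X → X} {A : Bool → Set X}
    (hcov : ∀ b c, ∀ y ∈ A c, ∃ x ∈ A b, F x = y) (hne : (A true).Nonempty) :
    ∀ (n : ℕ) (s : ℕ → Bool), ∃ x, (∀ i < n, F^[i] x ∈ A (s i)) ∧ ∃ b, x ∈ A b := by
  intro n
  induction n with
  | zero =>
    intro s
    obtain ⟨x, hx⟩ := hne
    exact ⟨x, fun i hi => absurd hi (Nat.not_lt_zero i), true, hx⟩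
  | succ n ih =>
    intro s
    obtain ⟨y, hy, c, hyc⟩ := ih (fun i => s (i + 1))
    obtain ⟨x, hx, hxy⟩ := hcov (s 0) c y hyc
    refine ⟨x, ?_, s 0, hx⟩
    intro i hi
    cases i with
    | zero => simpa using hx
    | succ j =>
      rw [Function.iterate_succ_apply, hxy]
      exact hy j (by omega)

theorem horseshoe_le {X : Type*} [TopologicalSpace X] {F : X → X} {A : Bool → Set X} (hclosed : ∀ b, IsClosed (A b))
    (hdisj : Disjoint (A true) (A false))
    (hcov : ∀ b c, ∀ y ∈ A c, ∃ x ∈ A b, F x = y) (hne : (A true).Nonempty) :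
    ((Real.log 2 : ℝ) : EReal) ≤ topEntropy F := by
  classical
  -- the open cover by the two complements
  set U : Set (Set X) := {(A true)ᶜ, (A false)ᶜ} with hU
  have hUcov : IsOpenCover U := by
    constructor
    · intro u hu
      rcases hu with h | h
      · rw [h]; exact (hclosed true).isOpen_compl
      · rw [mem_singleton_iff] at h
        rw [h]; exact (hclosed false).isOpen_compl
    · rw [eq_univ_iff_forall]
      intro x
      by_cases hx : x ∈ A true
      · have h2 : x ∉ A false := fun h => (Set.disjoint_left.mp hdisj) hx h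
        exact ⟨(A false)ᶜ, by simp [hU], h2⟩
      · exact ⟨(A true)ᶜ, by simp [hU], hx⟩
  have hmem : ∀ u ∈ U, ∃ b, u = (A b)ᶜ := by
    intro u hu
    rcases hu with h | h
    · exact ⟨true, h⟩
    · exact ⟨false, h⟩
  -- lower bound for every subcover
  have hlow : ∀ n : ℕ, 2 ^ n ≤ coverNum (iterJoin F U n) := by
    intro n
    apply le_csInf
    · -- nonempty: the join is finite
      have hfin : (iterJoin F U n).Finite := by
        have hUf : U.Finite := by rw [hU]; exact (Set.finite_singleton _).insert _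
        have : (Set.pi univ (fun _ : Fin n => U)).Finite := Set.Finite.pi (fun _ => hUf)
        refine (this.image (fun u : Fin n → Set X => ⋂ i : Fin n, (F^[(i : ℕ)]) ⁻¹' (u i))).subset ?_
        rintro w ⟨u, hu, rfl⟩
        exact ⟨u, fun i _ => hu i, rfl⟩
      refine ⟨hfin.toFinset.card, hfin.toFinset, ?_, ?_, rfl⟩
      · rw [hfin.coe_toFinset]
      · rw [hfin.coe_toFinset, eq_univ_iff_forall]
        intro x
        have hx : ∀ i : Fin n, ∃ u ∈ U, F^[(i : ℕ)] x ∈ u := by
          intro i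
          have := hUcov.2 ▸ mem_univ (F^[(i : ℕ)] x)
          exact mem_sUnion.mp (hUcov.2.symm ▸ mem_univ (F^[(i : ℕ)] x))
        choose u hu hxu using hx
        exact ⟨_, ⟨u, hu, rfl⟩, mem_iInter.mpr hxu⟩
    · rintro k ⟨V, hVU, hVcov, rfl⟩
      -- points with prescribed itineraries
      have hpt : ∀ s : Fin n → Bool, ∃ x, ∀ i : Fin n, F^[(i : ℕ)] x ∈ A (s i) := by
        intro s
        obtain ⟨x, hx, -⟩ := exists_itinerary hcov hne n
          (fun i => if h : i < n then s ⟨i, h⟩ else true)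
        refine ⟨x, fun i => ?_⟩
        have := hx i i.2
        simpa using this
      choose p hp using hpt
      have hin : ∀ s : Fin n → Bool, ∃ v ∈ V, p s ∈ v := by
        intro s
        have : p s ∈ ⋃₀ (V : Set (Set X)) := by rw [hVcov]; exact mem_univ _
        obtain ⟨v, hv, hpv⟩ := mem_sUnion.mp this
        exact ⟨v, hv, hpv⟩
      choose g hgV hpg using hin
      have hinj : Function.Injective g := by
        intro s t hst
        obtain ⟨u, hu, hgu⟩ := hVU (hgV s)
        have h1 := hpg s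
        have h2 := hpg t
        rw [← hst] at h2
        rw [hgu] at h1 h2
        funext i
        obtain ⟨b, hb⟩ := hmem _ (hu i)
        have h1i := mem_iInter.mp h1 i
        have h2i := mem_iInter.mp h2 i
        rw [hb] at h1i h2i
        have hs := hp s i
        have ht := hp t i
        have hs' : s i ≠ b := fun h => h1i (h ▸ hs)
        have ht' : t i ≠ b := fun h => h2i (h ▸ ht)
        cases hsi : s i <;> cases hti : t i <;> cases b <;> simp_all
      have hcard : Fintype.card (Fin n → Bool) ≤ V.card := by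
        rw [← Finset.card_univ]
        exact Finset.card_le_card_of_injOn g (fun s _ => hgV s) hinj.injOn
      simpa using hcard
  -- conclude
  have hent : ((Real.log 2 : ℝ) : EReal) ≤ entropyOf F U := by
    unfold entropyOf
    apply le_limsup_of_frequently_le
    · apply Eventually.frequently
      filter_upwards [eventually_ge_atTop 1] with n hn
      apply EReal.coe_le_coe_iff.mpr
      have hn0 : (0:ℝ) < n := by exact_mod_cast hn
      rw [le_div_iff₀ hn0]
      have h1 : ((2:ℝ) ^ n) ≤ (coverNum (iterJoin F U n) : ℝ) := by exact_mod_cast hlow n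
      calc Real.log 2 * n = Real.log ((2:ℝ) ^ n) := by rw [Real.log_pow]; ring
        _ ≤ _ := Real.log_le_log (by positivity) h1
    · isBoundedDefault
  exact hent.trans (le_iSup₂_of_le U hUcov le_rfl)

end Horseshoe

/-! ## Zero entropy by counting itineraries -/

section Counting

theorem coverNum_le_card {X α : Type*} [Fintype α] {κ : Type*} {F : X → X} {U : Set (Set X)}
    {c : X → κ} {t : κ → Set X} (htU : ∀ j, t j ∈ U) (htc : ∀ x, x ∈ t (c x))
    {n : ℕ} (code : X → α)
    (hcode : ∀ x y, code x = code y → ∀ i < n, c (F^[i] x) = c (F^[i] y)) :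
    coverNum (iterJoin F U n) ≤ Fintype.card α := by
  classical
  -- the member of the join attached to a point
  let S : X → Set X := fun x => ⋂ i : Fin n, (F^[(i : ℕ)]) ⁻¹' (t (c (F^[(i : ℕ)] x)))
  have hSc : ∀ x y, code x = code y → S x = S y := by
    intro x y hxy
    apply iInter_congr
    intro i
    rw [hcode x y hxy i i.2]
  -- the finite family
  let g : α → Option (Set X) := fun a =>
    if h : ∃ x, code x = a then some (S h.choose) else none
  have hg : ∀ x, g (code x) = some (S x) := by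
    intro x
    have h : ∃ y, code y = code x := ⟨x, rfl⟩
    simp only [g, dif_pos h]
    rw [hSc _ _ h.choose_spec]
  let V : Finset (Set X) := (Finset.univ.image g).eraseNone
  have hVmem : ∀ w, w ∈ V ↔ ∃ x, w = S x := by
    intro w
    simp only [V, Finset.mem_eraseNone, Finset.mem_image, Finset.mem_univ, true_and]
    constructor
    · rintro ⟨a, ha⟩
      by_cases h : ∃ x, code x = a
      · simp only [g, dif_pos h, Option.some.injEq] at ha
        exact ⟨_, ha.symm⟩
      · simp [g, dif_neg h] at ha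
    · rintro ⟨x, rfl⟩
      exact ⟨code x, hg x⟩
  have hcard : V.card ≤ Fintype.card α := by
    calc V.card ≤ (Finset.univ.image g).card := by
          have := Finset.card_eraseNone_le (s := Finset.univ.image g)
          exact this
      _ ≤ (Finset.univ : Finset α).card := Finset.card_image_le
      _ = Fintype.card α := Finset.card_univ
  refine le_trans (Nat.sInf_le ⟨V, ?_, ?_, rfl⟩) hcard
  · intro w hw
    obtain ⟨x, rfl⟩ := (hVmem w).mp hw
    exact ⟨fun i => t (c (F^[(i : ℕ)] x)), fun i => htU _, rfl⟩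
  · rw [eq_univ_iff_forall]
    intro x
    exact ⟨S x, (hVmem _).mpr ⟨x, rfl⟩, mem_iInter.mpr (fun i => htc _)⟩

/-- A monotone colouring subordinate to an open cover of the unit interval. -/
theorem exists_colouring {U : Set (Set (Icc (0:ℝ) 1))} (hU : IsOpenCover U) :
    ∃ (m : ℕ) (c : Icc (0:ℝ) 1 → Fin (m + 1)) (t : Fin (m + 1) → Set (Icc (0:ℝ) 1)),
      Monotone c ∧ (∀ j, t j ∈ U) ∧ ∀ x, x ∈ t (c x) := by
  obtain ⟨δ, hδ, hleb⟩ := lebesgue_number_lemma_of_metric_sUnion
    (isCompact_univ (X := Icc (0:ℝ) 1)) hU.1 (by rw [hU.2])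
  obtain ⟨m, hm⟩ := exists_nat_gt (1 / δ)
  have hm0 : (0:ℝ) < m := lt_trans (by positivity) hm
  have hmδ : 1 / (m:ℝ) < δ := by
    rw [div_lt_iff₀ hm0]
    rw [div_lt_iff₀ hδ] at hm
    linarith
  have hlt : ∀ x : Icc (0:ℝ) 1, ⌊(m:ℝ) * x⌋₊ < m + 1 := by
    intro x
    rw [Nat.floor_lt (mul_nonneg hm0.le x.2.1)]
    have := mul_le_mul_of_nonneg_left x.2.2 hm0.le
    push_cast
    linarith
  let c : Icc (0:ℝ) 1 → Fin (m + 1) := fun x => ⟨⌊(m:ℝ) * x⌋₊, hlt x⟩
  have hmono : Monotone c := by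
    intro x y hxy
    apply Fin.mk_le_mk.mpr
    apply Nat.floor_le_floor
    exact mul_le_mul_of_nonneg_left hxy hm0.le
  have hclose : ∀ x y, c x = c y → dist x y < δ := by
    intro x y hxy
    have h1 : ⌊(m:ℝ) * x⌋₊ = ⌊(m:ℝ) * y⌋₊ := congrArg Fin.val hxy
    have hx1 := Nat.floor_le (mul_nonneg hm0.le x.2.1)
    have hx2 := Nat.lt_floor_add_one ((m:ℝ) * x)
    have hy1 := Nat.floor_le (mul_nonneg hm0.le y.2.1)
    have hy2 := Nat.lt_floor_add_one ((m:ℝ) * y)
    rw [h1] at hx1 hx2
    have h2 : |(m:ℝ) * x - m * y| < 1 := by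
      rw [abs_lt]; constructor <;> linarith
    rw [← mul_sub, abs_mul, abs_of_pos hm0] at h2
    refine lt_trans ?_ hmδ
    rw [Subtype.dist_eq, Real.dist_eq, lt_div_iff₀ hm0, mul_comm]
    exact h2
  have hne : ∀ j : Fin (m + 1), ∃ u ∈ U, ∀ x, c x = j → x ∈ u := by
    intro j
    by_cases h : ∃ x, c x = j
    · obtain ⟨x, hx⟩ := h
      obtain ⟨u, hu, hsub⟩ := hleb x (mem_univ _)
      refine ⟨u, hu, fun y hy => hsub ?_⟩
      exact hclose y x (by rw [hy, hx])
    · obtain ⟨u, hu, -⟩ := hleb ⟨0, by simp⟩ (mem_univ _)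
      exact ⟨u, hu, fun x hx => absurd ⟨x, hx⟩ h⟩
  choose t ht htc using hne
  exact ⟨m, c, t, hmono, ht, fun x => htc _ x rfl⟩

theorem tendsto_bound (m : ℕ) :
    Tendsto (fun n : ℕ => (4 * Real.log ((m:ℝ) + 1) + 4 * Real.log ((n:ℝ) + 1)) / (n:ℝ))
      atTop (𝓝 0) := by
  have h1 : Tendsto (fun n : ℕ => Real.log ((n:ℝ) + 1) / ((n:ℝ) + 1)) atTop (𝓝 0) := by
    have h := Real.isLittleO_log_id_atTop.tendsto_div_nhds_zero
    have h2 : Tendsto (fun n : ℕ => (n:ℝ) + 1) atTop atTop :=
      tendsto_atTop_add_const_right _ _ tendsto_natCast_atTop_atTop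
    exact h.comp h2
  have h2 : Tendsto (fun n : ℕ => ((n:ℝ) + 1) / (n:ℝ)) atTop (𝓝 1) := by
    have h3 : Tendsto (fun n : ℕ => 1 + 1 / (n:ℝ)) atTop (𝓝 (1 + 0)) :=
      tendsto_const_nhds.add tendsto_one_div_atTop_nhds_zero_nat
    rw [add_zero] at h3
    refine h3.congr' ?_
    filter_upwards [eventually_ge_atTop 1] with n hn
    have : (n:ℝ) ≠ 0 := by exact_mod_cast (by omega : n ≠ 0)
    field_simp
  have h3 : Tendsto (fun n : ℕ => 4 * Real.log ((m:ℝ) + 1) / (n:ℝ)) atTop (𝓝 0) :=
    tendsto_const_div_atTop_nhds_zero_nat _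
  have h4 := (h3.add ((h1.mul h2).const_mul 4))
  simp only [zero_mul, mul_zero, add_zero] at h4
  refine h4.congr' ?_
  filter_upwards [eventually_ge_atTop 1] with n hn
  have : (n:ℝ) ≠ 0 := by exact_mod_cast (by omega : n ≠ 0)
  have : (n:ℝ) + 1 ≠ 0 := by positivity
  field_simp

/-- Comparable orbits with equal colour sums have equal colours. -/
theorem colours_eq {κ : Type*} [LinearOrder κ] {m : ℕ} {c : κ → Fin (m + 1)} (hc : Monotone c)
    {a b : ℕ → κ} {n : ℕ} (hab : ∀ i < n, a i ≤ b i)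
    (hsum : ∑ i ∈ Finset.range n, (c (a i) : ℕ) = ∑ i ∈ Finset.range n, (c (b i) : ℕ)) :
    ∀ i < n, c (a i) = c (b i) := by
  have h := (Finset.sum_eq_sum_iff_of_le (s := Finset.range n)
    (f := fun i => (c (a i) : ℕ)) (g := fun i => (c (b i) : ℕ))
    (fun i hi => hc (hab i (Finset.mem_range.mp hi)))).mp hsum
  intro i hi
  exact Fin.ext (h i (Finset.mem_range.mpr hi))

theorem sum_lt {κ : Type*} {m : ℕ} (c : κ → Fin (m + 1)) (a : ℕ → κ) {k n : ℕ} (hk : k ≤ n) :
    ∑ i ∈ Finset.range k, (c (a i) : ℕ) < n * m + 1 := by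
  have h : ∑ i ∈ Finset.range k, (c (a i) : ℕ) ≤ ∑ _i ∈ Finset.range k, m :=
    Finset.sum_le_sum (fun i _ => Nat.lt_succ_iff.mp (c (a i)).2)
  rw [Finset.sum_const, Finset.card_range, smul_eq_mul] at h
  have h2 : k * m ≤ n * m := Nat.mul_le_mul_right m hk
  omega

/-- Zero entropy for a map that increases on `[0, α]`, sends `(α, β]` into an invariant interval
`J = [γ, β]` on which it increases, and has values at most `β`. -/
theorem topEntropy_nonpos {F : Icc (0:ℝ) 1 → Icc (0:ℝ) 1} {α β γ : Icc (0:ℝ) 1}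
    (hA : ∀ x y, x ≤ y → y ≤ α → F x ≤ F y)
    (hB : ∀ x, α < x → x ≤ β → F x ∈ Icc γ β)
    (hJ : ∀ x ∈ Icc γ β, F x ∈ Icc γ β)
    (hJm : ∀ x ∈ Icc γ β, ∀ y ∈ Icc γ β, x ≤ y → F x ≤ F y)
    (hI : ∀ x, F x ≤ β) :
    topEntropy F ≤ 0 := by
  classical
  refine iSup₂_le (fun U hU => ?_)
  obtain ⟨m, c, t, hc, htU, htc⟩ := exists_colouring hU
  have hbound : ∀ n : ℕ, coverNum (iterJoin F U n) ≤ (m + 1) ^ 4 * (n + 1) ^ 4 := by
    intro n
    have hex : ∀ y : Icc (0:ℝ) 1, ∃ k, k = n ∨ α < F^[k] y := fun y => ⟨n, Or.inl rfl⟩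
    let kf : Icc (0:ℝ) 1 → ℕ := fun y => Nat.find (hex y)
    have hkf_le : ∀ y, kf y ≤ n := fun y => Nat.find_min' (hex y) (Or.inl rfl)
    have hkf_spec : ∀ y, kf y = n ∨ α < F^[kf y] y := fun y => Nat.find_spec (hex y)
    have hkf_min : ∀ y, ∀ i < kf y, F^[i] y ≤ α := by
      intro y i hi
      have := Nat.find_min (hex y) hi
      push Not at this
      exact this.2
    let code : Icc (0:ℝ) 1 →
        Fin (m + 1) × Fin (n + 1) × Fin (n * m + 1) × Fin (m + 1) × Fin (n * m + 1) :=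
      fun x =>
        (c x, ⟨kf (F x), Nat.lt_succ_of_le (hkf_le _)⟩,
          ⟨∑ i ∈ Finset.range (kf (F x)), (c (F^[i] (F x)) : ℕ),
            sum_lt c (fun i => F^[i] (F x)) (hkf_le _)⟩,
          c (F^[kf (F x)] (F x)),
          ⟨∑ i ∈ Finset.range n, (c (F^[i] (F^[kf (F x) + 1] (F x))) : ℕ),
            sum_lt c (fun i => F^[i] (F^[kf (F x) + 1] (F x))) le_rfl⟩)
    have hcode : ∀ x y, code x = code y → ∀ i < n, c (F^[i] x) = c (F^[i] y) := by
      intro x y hxy
      simp only [code, Prod.mk.injEq, Fin.mk.injEq] at hxy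
      obtain ⟨h0, h1, h2, h3, h4⟩ := hxy
      -- the colours of the orbits of `F x` and `F y`
      have hxβ : F x ≤ β := hI x
      have hyβ : F y ≤ β := hI y
      obtain ⟨x', hx'⟩ : ∃ x', x' = F x := ⟨_, rfl⟩
      obtain ⟨y', hy'⟩ : ∃ y', y' = F y := ⟨_, rfl⟩
      rw [← hx', ← hy'] at h1 h2 h3 h4
      rw [← hx'] at hxβ
      rw [← hy'] at hyβ
      obtain ⟨k, hk⟩ : ∃ k, k = kf x' := ⟨_, rfl⟩
      have hk' : k = kf y' := by rw [hk, h1]
      rw [← hk, ← hk'] at h2 h3 h4
      have hxmin : ∀ i < k, F^[i] x' ≤ α := fun i hi => hkf_min x' i (hk ▸ hi)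
      have hymin : ∀ i < k, F^[i] y' ≤ α := fun i hi => hkf_min y' i (hk' ▸ hi)
      have hmonoA : ∀ a b : Icc (0:ℝ) 1, a ≤ b → (∀ i < k, F^[i] b ≤ α) →
          ∀ i < k, F^[i] a ≤ F^[i] b := by
        intro a b hab hb i
        induction i with
        | zero => intro _; simpa using hab
        | succ j ih =>
          intro hj
          rw [Function.iterate_succ_apply', Function.iterate_succ_apply']
          exact hA _ _ (ih (by omega)) (hb j (by omega))
      have hfirst : ∀ i < k, c (F^[i] x') = c (F^[i] y') := by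
        rcases le_total x' y' with h | h
        · exact colours_eq hc (hmonoA x' y' h hymin) h2
        · intro i hi
          exact (colours_eq hc (hmonoA y' x' h hxmin) h2.symm i hi).symm
      have hβall : ∀ z : Icc (0:ℝ) 1, z ≤ β → ∀ i, F^[i] z ≤ β := by
        intro z hz i
        cases i with
        | zero => simpa using hz
        | succ j => rw [Function.iterate_succ_apply']; exact hI _
      have hall : ∀ i < n, c (F^[i] x') = c (F^[i] y') := by
        intro i hi
        rcases lt_trichotomy i k with h | h | h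
        · exact hfirst i h
        · rw [h]; exact h3
        · -- both orbits have entered `J`
          have hkn : k < n := lt_trans h hi
          have hxk : α < F^[k] x' := by
            rcases hkf_spec x' with h5 | h5
            · rw [← hk] at h5; omega
            · rw [← hk] at h5; exact h5
          have hyk : α < F^[k] y' := by
            rcases hkf_spec y' with h5 | h5
            · rw [← hk'] at h5; omega
            · rw [← hk'] at h5; exact h5
          have hxJ : F^[k + 1] x' ∈ Icc γ β := by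
            rw [Function.iterate_succ_apply']
            exact hB _ hxk (hβall x' hxβ k)
          have hyJ : F^[k + 1] y' ∈ Icc γ β := by
            rw [Function.iterate_succ_apply']
            exact hB _ hyk (hβall y' hyβ k)
          have hinJ : ∀ z ∈ Icc γ β, ∀ j, F^[j] z ∈ Icc γ β := by
            intro z hz j
            induction j with
            | zero => simpa using hz
            | succ j ih => rw [Function.iterate_succ_apply']; exact hJ _ ih
          have hmonoJ : ∀ a ∈ Icc γ β, ∀ b ∈ Icc γ β, a ≤ b → ∀ j, F^[j] a ≤ F^[j] b := by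
            intro a ha b hb hab j
            induction j with
            | zero => simpa using hab
            | succ j ih =>
              rw [Function.iterate_succ_apply', Function.iterate_succ_apply']
              exact hJm _ (hinJ a ha j) _ (hinJ b hb j) ih
          have htail : ∀ j < n, c (F^[j] (F^[k + 1] x')) = c (F^[j] (F^[k + 1] y')) := by
            rcases le_total (F^[k + 1] x') (F^[k + 1] y') with h5 | h5
            · exact colours_eq hc (fun j _ => hmonoJ _ hxJ _ hyJ h5 j) h4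
            · intro j hj
              exact (colours_eq hc (fun j _ => hmonoJ _ hyJ _ hxJ h5 j) h4.symm j hj).symm
          obtain ⟨j, rfl⟩ : ∃ j, i = j + (k + 1) := ⟨i - (k + 1), by omega⟩
          rw [Function.iterate_add_apply F j (k + 1) x', Function.iterate_add_apply F j (k + 1) y']
          exact htail j (by omega)
      intro i hi
      cases i with
      | zero => simpa using h0
      | succ j =>
        rw [Function.iterate_succ_apply, Function.iterate_succ_apply, ← hx', ← hy']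
        exact hall j (by omega)
    refine (coverNum_le_card htU htc code hcode).trans ?_
    simp only [Fintype.card_prod, Fintype.card_fin]
    have h5 : n * m + 1 ≤ (m + 1) * (n + 1) := by nlinarith
    calc (m + 1) * ((n + 1) * ((n * m + 1) * ((m + 1) * (n * m + 1))))
        ≤ (m + 1) * ((n + 1) * (((m + 1) * (n + 1)) * ((m + 1) * ((m + 1) * (n + 1))))) := by
          gcongr
      _ = (m + 1) ^ 4 * (n + 1) ^ 3 := by ring
      _ ≤ (m + 1) ^ 4 * (n + 1) ^ 4 := by
          gcongr
          · omega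
          · norm_num
  -- conclude
  have hlim : Tendsto (fun n : ℕ =>
      (((4 * Real.log ((m:ℝ) + 1) + 4 * Real.log ((n:ℝ) + 1)) / (n:ℝ) : ℝ) : EReal))
      atTop (𝓝 ((0:ℝ) : EReal)) :=
    (continuous_coe_real_ereal.tendsto 0).comp (tendsto_bound m)
  have hle : entropyOf F U ≤ limsup (fun n : ℕ =>
      (((4 * Real.log ((m:ℝ) + 1) + 4 * Real.log ((n:ℝ) + 1)) / (n:ℝ) : ℝ) : EReal)) atTop := by
    unfold entropyOf
    apply limsup_le_limsup
    · filter_upwards [eventually_ge_atTop 1] with n hn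
      apply EReal.coe_le_coe_iff.mpr
      have hn0 : (0:ℝ) < n := by exact_mod_cast hn
      apply div_le_div_of_nonneg_right _ hn0.le
      rcases Nat.eq_zero_or_pos (coverNum (iterJoin F U n)) with h | h
      · rw [h]
        simp only [Nat.cast_zero, Real.log_zero]
        have h6 : 0 ≤ Real.log ((m:ℝ) + 1) := Real.log_nonneg (by linarith [(Nat.cast_nonneg m : (0:ℝ) ≤ m)])
        have h7 : 0 ≤ Real.log ((n:ℝ) + 1) := Real.log_nonneg (by linarith)
        linarith
      · have h8 : (coverNum (iterJoin F U n) : ℝ) ≤ ((m:ℝ) + 1) ^ 4 * ((n:ℝ) + 1) ^ 4 := by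
          exact_mod_cast hbound n
        have h9 : (0:ℝ) < (coverNum (iterJoin F U n) : ℝ) := by exact_mod_cast h
        have h10 := Real.log_le_log h9 h8
        have hm1 : (0:ℝ) < (m:ℝ) + 1 := by positivity
        have hn1 : (0:ℝ) < (n:ℝ) + 1 := by positivity
        rw [Real.log_mul (by positivity) (by positivity), Real.log_pow, Real.log_pow] at h10
        push_cast at h10
        exact h10
    · isBoundedDefault
    · isBoundedDefault
  rw [hlim.limsup_eq] at hle
  simpa using hle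

theorem topEntropy_nonneg {X : Type*} [TopologicalSpace X] [Nonempty X] (F : X → X) :
    0 ≤ topEntropy F := by
  have hU : IsOpenCover ({univ} : Set (Set X)) := by
    constructor
    · intro u hu
      rw [mem_singleton_iff] at hu
      rw [hu]; exact isOpen_univ
    · simp
  refine le_trans ?_ (le_iSup₂_of_le ({univ} : Set (Set X)) hU le_rfl)
  unfold entropyOf
  apply le_limsup_of_frequently_le
  · apply Eventually.frequently
    filter_upwards with n
    have h : (0:ℝ) ≤ Real.log (coverNum (iterJoin F ({univ} : Set (Set X)) n)) / (n:ℝ) := by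
      apply div_nonneg _ (Nat.cast_nonneg n)
      exact Real.log_natCast_nonneg _
    exact_mod_cast h
  · isBoundedDefault

end Counting

/-! ## The two compositions -/

theorem logistic_coe (a : Icc (1:ℝ) 4) (x : Icc (0:ℝ) 1) :
    ((logistic a x : Icc (0:ℝ) 1) : ℝ) = a * x * (1 - x) := rfl

theorem incr {a x y : ℝ} (ha : 0 ≤ a) (hxy : x ≤ y) (hy : y ≤ 1 / 2) :
    a * x * (1 - x) ≤ a * y * (1 - y) := by
  have h : a * y * (1 - y) - a * x * (1 - x) = a * ((y - x) * (1 - x - y)) := by ring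
  have h2 : 0 ≤ a * ((y - x) * (1 - x - y)) :=
    mul_nonneg ha (mul_nonneg (by linarith) (by linarith))
  linarith

theorem decr {a x y : ℝ} (ha : 0 ≤ a) (hx : 1 / 2 ≤ x) (hxy : x ≤ y) :
    a * y * (1 - y) ≤ a * x * (1 - x) := by
  have h : a * x * (1 - x) - a * y * (1 - y) = a * ((y - x) * (x + y - 1)) := by ring
  have h2 : 0 ≤ a * ((y - x) * (x + y - 1)) :=
    mul_nonneg ha (mul_nonneg (by linarith) (by linarith))
  linarith

theorem quarter (z : ℝ) : 1 * z * (1 - z) ≤ 1 / 4 := by nlinarith [sq_nonneg (z - 1 / 2)]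

/-- The parameter `1`. -/
def one : Icc (1:ℝ) 4 := ⟨1, by norm_num⟩

/-- The parameter `3`. -/
def three : Icc (1:ℝ) 4 := ⟨3, by norm_num⟩

/-- The parameter `4`. -/
def four : Icc (1:ℝ) 4 := ⟨4, by norm_num⟩

theorem zero_coe (x : Icc (0:ℝ) 1) :
    (((logistic one ∘ logistic three ∘ logistic four) x : Icc (0:ℝ) 1) : ℝ) =
      1 * (3 * (4 * x * (1 - x)) * (1 - 4 * x * (1 - x))) *
        (1 - 3 * (4 * x * (1 - x)) * (1 - 4 * x * (1 - x))) := rfl

theorem pos_coe (x : Icc (0:ℝ) 1) :
    (((logistic one ∘ logistic four ∘ logistic three) x : Icc (0:ℝ) 1) : ℝ) =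
      1 * (4 * (3 * x * (1 - x)) * (1 - 3 * x * (1 - x))) *
        (1 - 4 * (3 * x * (1 - x)) * (1 - 3 * x * (1 - x))) := rfl

theorem trap {x : ℝ} (h0 : 1 / 20 ≤ x) (h1 : x ≤ 1 / 4) :
    3 / 16 ≤ 1 * (3 * (4 * x * (1 - x)) * (1 - 4 * x * (1 - x))) *
        (1 - 3 * (4 * x * (1 - x)) * (1 - 4 * x * (1 - x))) := by
  have h1 : 4 * (1 / 20) * (1 - 1 / 20) ≤ 4 * x * (1 - x) :=
    incr (by norm_num) h0 (by linarith)
  have h2 : 4 * x * (1 - x) ≤ 4 * (1 / 4) * (1 - 1 / 4) :=
    incr (by norm_num) (by linarith) (by norm_num)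
  obtain ⟨y, hy⟩ : ∃ y, y = 4 * x * (1 - x) := ⟨_, rfl⟩
  rw [← hy] at h1 h2 ⊢
  norm_num at h1 h2
  have h3 : 1 / 4 ≤ 3 * y * (1 - y) := by nlinarith
  have h4 : 3 * y * (1 - y) ≤ 3 / 4 := by nlinarith [sq_nonneg (y - 1 / 2)]
  obtain ⟨z, hz⟩ : ∃ z, z = 3 * y * (1 - y) := ⟨_, rfl⟩
  rw [← hz] at h3 h4 ⊢
  nlinarith [mul_nonneg (sub_nonneg.mpr h3) (sub_nonneg.mpr h4)]

/-- `f₁ ∘ f₃ ∘ f₄` has entropy zero. -/
theorem entropy_zero : topEntropy (logistic one ∘ logistic three ∘ logistic four) = 0 := by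
  have hne : Nonempty (Icc (0:ℝ) 1) := ⟨⟨0, by norm_num⟩⟩
  refine le_antisymm ?_ (topEntropy_nonneg _)
  refine topEntropy_nonpos (α := ⟨1 / 20, by norm_num⟩)
    (β := ⟨1 / 4, by norm_num⟩) (γ := ⟨3 / 16, by norm_num⟩) ?_ ?_ ?_ ?_ ?_
  · intro x y hxy hy
    have hxy' : (x : ℝ) ≤ y := hxy
    have hy' : (y : ℝ) ≤ 1 / 20 := hy
    rw [← Subtype.coe_le_coe, zero_coe, zero_coe]
    have h1 : 4 * (x : ℝ) * (1 - x) ≤ 4 * y * (1 - y) := incr (by norm_num) hxy' (by linarith)
    have h2 : 4 * (y : ℝ) * (1 - y) ≤ 4 * (1 / 20) * (1 - 1 / 20) :=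
      incr (by norm_num) hy' (by norm_num)
    have h3 := incr (a := 3) (by norm_num) h1 (by linarith)
    have h4 := incr (a := 3) (by norm_num) h2 (by norm_num)
    exact incr (a := 1) (by norm_num) h3 (by
      refine h4.trans ?_
      norm_num)
  · intro x hαx hxβ
    have hαx' : 1 / 20 < (x : ℝ) := hαx
    have hxβ' : (x : ℝ) ≤ 1 / 4 := hxβ
    rw [mem_Icc, ← Subtype.coe_le_coe, ← Subtype.coe_le_coe, zero_coe]
    exact ⟨trap hαx'.le hxβ', quarter _⟩
  · rintro x ⟨hγx, hxβ⟩
    have hγx' : 3 / 16 ≤ (x : ℝ) := hγx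
    have hxβ' : (x : ℝ) ≤ 1 / 4 := hxβ
    rw [mem_Icc, ← Subtype.coe_le_coe, ← Subtype.coe_le_coe, zero_coe]
    exact ⟨trap (by linarith) hxβ', quarter _⟩
  · rintro x ⟨hγx, hxβ⟩ y ⟨hγy, hyβ⟩ hxy
    have hγx' : 3 / 16 ≤ (x : ℝ) := hγx
    have hyβ' : (y : ℝ) ≤ 1 / 4 := hyβ
    have hxy' : (x : ℝ) ≤ y := hxy
    rw [← Subtype.coe_le_coe, zero_coe, zero_coe]
    have h1 : 4 * (3 / 16) * (1 - 3 / 16) ≤ 4 * (x : ℝ) * (1 - x) :=
      incr (by norm_num) hγx' (by linarith)
    have h2 : 4 * (y : ℝ) * (1 - y) ≤ 4 * (1 / 4) * (1 - 1 / 4) :=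
      incr (by norm_num) hyβ' (by norm_num)
    have h3 : 4 * (x : ℝ) * (1 - x) ≤ 4 * y * (1 - y) := incr (by norm_num) hxy' (by linarith)
    have h4 : 3 * (4 * (y : ℝ) * (1 - y)) * (1 - 4 * y * (1 - y))
        ≤ 3 * (4 * (x : ℝ) * (1 - x)) * (1 - 4 * x * (1 - x)) :=
      decr (by norm_num) (by refine le_trans ?_ h1; norm_num) h3
    have h5 : 3 * (4 * (1 / 4) * (1 - 1 / 4)) * (1 - 4 * (1 / 4) * (1 - 1 / 4))
        ≤ 3 * (4 * (y : ℝ) * (1 - y)) * (1 - 4 * y * (1 - y)) :=
      decr (by norm_num) (by refine le_trans ?_ (h1.trans h3); norm_num) h2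
    exact decr (a := 1) (by norm_num) (by refine le_trans ?_ h5; norm_num) h4
  · intro x
    rw [← Subtype.coe_le_coe, zero_coe]
    exact quarter _

/-- `f₁ ∘ f₄ ∘ f₃` has a horseshoe. -/
theorem entropy_pos :
    ((Real.log 2 : ℝ) : EReal) ≤ topEntropy (logistic one ∘ logistic four ∘ logistic three) := by
  let g : ℝ → ℝ := fun x => 1 * (4 * (3 * x * (1 - x)) * (1 - 3 * x * (1 - x))) *
    (1 - 4 * (3 * x * (1 - x)) * (1 - 3 * x * (1 - x)))
  have hg : Continuous g := by fun_prop
  let A : Bool → Set (Icc (0:ℝ) 1) := fun b =>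
    bif b then {x | (x : ℝ) ≤ 1 / 25} else {x | 7 / 100 ≤ (x : ℝ) ∧ (x : ℝ) ≤ 22 / 100}
  have hle : ∀ c, ∀ y ∈ A c, (y : ℝ) ≤ 22 / 100 := by
    intro c y hy
    cases c with
    | true =>
      have : (y : ℝ) ≤ 1 / 25 := hy
      linarith
    | false => exact hy.2
  have h25 : 22 / 100 ≤ g (1 / 25) := by simp only [g]; norm_num
  have h07 : 22 / 100 ≤ g (7 / 100) := by simp only [g]; norm_num
  -- the zero of `g` inside `[7/100, 22/100]`
  obtain ⟨z, hz, hgz⟩ : ∃ z ∈ Icc (7 / 100 : ℝ) (22 / 100), g z = 0 := by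
    have hc : ContinuousOn (fun x : ℝ => 3 * x * (1 - x)) (Icc (7 / 100) (22 / 100)) := by
      fun_prop
    have := intermediate_value_Icc (by norm_num) hc
      (show (1 / 2 : ℝ) ∈ Icc (3 * (7 / 100 : ℝ) * (1 - 7 / 100)) (3 * (22 / 100) * (1 - 22 / 100))
        by constructor <;> norm_num)
    obtain ⟨z, hz, hz2⟩ := this
    refine ⟨z, hz, ?_⟩
    have hz3 : 3 * z * (1 - z) = 1 / 2 := hz2
    simp only [g, hz3]
    norm_num
  refine horseshoe_le (A := A) ?_ ?_ ?_ ?_
  · intro b
    cases b with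
    | true =>
      exact isClosed_le continuous_subtype_val continuous_const
    | false =>
      exact (isClosed_le continuous_const continuous_subtype_val).inter
        (isClosed_le continuous_subtype_val continuous_const)
  · rw [Set.disjoint_left]
    intro x hx hx'
    have h1 : (x : ℝ) ≤ 1 / 25 := hx
    have h2 : 7 / 100 ≤ (x : ℝ) := hx'.1
    linarith
  · intro b c y hy
    have hyle := hle c y hy
    have hy0 : 0 ≤ (y : ℝ) := y.2.1
    cases b with
    | true =>
      have := intermediate_value_Icc (show (0:ℝ) ≤ 1 / 25 by norm_num) hg.continuousOn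
        (show (y : ℝ) ∈ Icc (g 0) (g (1 / 25)) from ⟨by simp only [g]; norm_num; exact hy0,
          hyle.trans h25⟩)
      obtain ⟨x, hx, hgx⟩ := this
      exact ⟨⟨x, ⟨hx.1, by linarith [hx.2]⟩⟩, hx.2, Subtype.ext hgx⟩
    | false =>
      have := intermediate_value_Icc' hz.1 hg.continuousOn
        (show (y : ℝ) ∈ Icc (g z) (g (7 / 100)) from ⟨by rw [hgz]; exact hy0, hyle.trans h07⟩)
      obtain ⟨x, hx, hgx⟩ := this
      exact ⟨⟨x, ⟨by linarith [hx.1], by linarith [hx.2, hz.2]⟩⟩,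
        ⟨hx.1, by show x ≤ _; linarith [hx.2, hz.2]⟩, Subtype.ext hgx⟩
  · exact ⟨⟨0, by norm_num⟩, by show (0:ℝ) ≤ 1 / 25; norm_num⟩

/-- There are parameters `a₁, a₂, a₃ ∈ [1,4]` for which `f₁ ∘ f₂ ∘ f₃` has entropy `0` while
`f₁ ∘ f₃ ∘ f₂` has entropy at least `log 2`. -/
theorem result :
    ∃ a₁ a₂ a₃ : Icc (1:ℝ) 4,
      topEntropy (logistic a₁ ∘ logistic a₂ ∘ logistic a₃) = 0 ∧
      ((Real.log 2 : ℝ) : EReal) ≤ topEntropy (logistic a₁ ∘ logistic a₃ ∘ logistic a₂) :=
  ⟨one, three, four, entropy_zero, entropy_pos⟩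

end Pool.Agent.Results.MP_3cd2af_an.LogisticReorder
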